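import Mathlib

set_option autoImplicit false

namespace Pool.Agent.Results.MP_b74c76_co.No

open Nat Filter Topology

/-- parity of the number of Zeckendorf summands -/
def s (n : ℕ) : ZMod 2 := (zeckendorf n).length

/-- `N`-th maximum order complexity of `s` -/
noncomputable def M (N : ℕ) : ℕ :=
  sInf {k | ∃ f : (Fin k → ZMod 2) → ZMod 2, ∀ i, i + k < N → s (i + k) = f fun j => s (i + j)}

def P (N k : ℕ) : Prop :=
  ∀ i j, i + k < N → j + k < N → (∀ t < k, s (i + t) = s (j + t)) → s (i + k) = s (j + k)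

lemma P.succ {N k : ℕ} (h : P N k) : P N (k + 1) := fun i j a b c => by
  have := h (i + 1) (j + 1) (by omega) (by omega) fun t ht => by
    have := c (t + 1) (by omega)
    rwa [show i + 1 + t = i + (t + 1) by ring, show j + 1 + t = j + (t + 1) by ring]
  rwa [show i + (k + 1) = i + 1 + k by ring, show j + (k + 1) = j + 1 + k by ring]

lemma M_le {N k : ℕ} : M N ≤ k ↔ P N k := by
  classical
  have e : ∀ k, (∃ f : (Fin k → ZMod 2) → ZMod 2, ∀ i, i + k < N →
      s (i + k) = f fun j => s (i + j)) ↔ P N k := fun k => by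
    refine ⟨fun ⟨f, h⟩ i j a b c => by rw [h i a, h j b, funext fun t : Fin k => c t t.2],
      fun h => ⟨fun w => if e : ∃ i, i + k < N ∧ w = fun j : Fin k => s (i + j) then
        s (e.choose + k) else 0, fun i a => ?_⟩⟩
    have e : ∃ i', i' + k < N ∧ (fun j : Fin k => s (i + j)) = fun j : Fin k => s (i' + j) :=
      ⟨i, a, rfl⟩
    beta_reduce
    rw [dif_pos e]
    exact h _ _ a e.choose_spec.1 fun t ht => congrFun e.choose_spec.2 ⟨t, ht⟩
  simp only [M, e]
  refine ⟨fun h => ?_, fun h => Nat.sInf_le h⟩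
  have : P N (sInf {k | P N k}) := Nat.sInf_mem (s := {k | P N k}) ⟨N, fun i j a => by omega⟩
  induction k, h using Nat.le_induction with
  | base => exact this
  | succ k _ ih => exact ih.succ

lemma M_mono {N L : ℕ} (h : N ≤ L) : M N ≤ M L :=
  M_le.2 fun i j a b => M_le.1 le_rfl i j (by omega) (by omega)

lemma s_fib {k r : ℕ} (h : r < fib (k + 1)) : s (fib (k + 2) + r) = s r + 1 := by
  have : greatestFib (fib (k + 2) + r) = k + 2 := by
    apply le_antisymm
    · rw [← Nat.lt_succ_iff, greatestFib_lt,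
        show fib (k + 2).succ = fib (k + 1) + fib (k + 2) from fib_add_two]; omega
    · rw [le_greatestFib]; omega
  rw [s, zeckendorf_of_pos (by have := fib_pos.2 (show 0 < k + 2 by omega); omega), this]
  simp [s]

lemma base (m n : ℕ) : ∃ A ≤ n, n < A + fib (m + 2) ∧ (∀ r < fib (m + 1), s (A + r) = s A + s r) ∧
    ∀ i, m + 1 ≤ i → n < fib i → A + fib (m + 1) ≤ fib i := by
  induction n using Nat.strong_induction_on with
  | _ n ih =>
    rcases lt_or_ge n (fib (m + 2)) with h | h
    · exact ⟨0, n.zero_le, by omega, by simp [s], fun i a _ => by simpa using fib_mono a⟩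
    obtain ⟨k, hk⟩ : ∃ k, greatestFib n = k + 2 := ⟨greatestFib n - 2, by
      have := le_greatestFib.2 h; omega⟩
    have k1 : m ≤ k := by have := le_greatestFib.2 h; omega
    have h1 := fib_greatestFib_le n
    have h2 := lt_fib_greatestFib_add_one n
    rw [hk] at h1 h2
    have e : fib (k + 3) = fib (k + 1) + fib (k + 2) := fib_add_two
    replace h2 : n < fib (k + 3) := h2
    have p := fib_pos.2 (show 0 < k + 2 by omega)
    have p2 := fib_pos.2 (show 0 < m + 1 by omega)
    obtain ⟨A, a1, a2, a3, a4⟩ := ih (n - fib (k + 2)) (by omega)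
    have a5 := a4 (k + 1) (by omega) (by omega)
    refine ⟨fib (k + 2) + A, by omega, by omega, fun r hr => ?_, fun i _ b => ?_⟩
    · rw [add_assoc, s_fib (by omega), s_fib (by omega), a3 r hr]; ring
    · have : k + 3 ≤ i := by
        by_contra c
        have := fib_mono (show i ≤ k + 2 by omega)
        omega
      have := fib_mono this
      omega

lemma noper {a p : ℕ} (p0 : 0 < p) : ¬ ∀ t < 34 * p, s (a + t + p) = s (a + t) := fun h => by
  obtain ⟨j, hj⟩ : ∃ j, greatestFib p = j + 1 := ⟨greatestFib p - 1, by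
    have := (le_greatestFib (m := 1)).2 p0; omega⟩
  have h1 := fib_greatestFib_le p
  have h2 := lt_fib_greatestFib_add_one p
  rw [hj] at h1 h2
  have e0 := fib_add_two (n := j)
  have e1 : fib (j + 3) = fib (j + 1) + fib (j + 2) := fib_add_two
  have e2 : fib (j + 4) = fib (j + 2) + fib (j + 3) := fib_add_two
  have e3 : fib (j + 5) = fib (j + 3) + fib (j + 4) := fib_add_two
  have e4 : fib (j + 6) = fib (j + 4) + fib (j + 5) := fib_add_two
  have e5 : fib (j + 7) = fib (j + 5) + fib (j + 6) := fib_add_two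
  have e6 : fib j ≤ fib (j + 1) := fib_le_fib_succ
  replace h2 : p < fib (j + 2) := h2
  obtain ⟨A, a1, a2, a3, -⟩ := base (j + 5) (a + fib (j + 7))
  replace a2 : a + fib (j + 7) < A + fib (j + 7) := a2
  replace a3 : ∀ r < fib (j + 6), s (A + r) = s A + s r := a3
  have per : ∀ r, r + p < fib (j + 6) → s (r + p) = s r := fun r hr => by
    have := h (A - a + r) (by omega)
    rwa [show a + (A - a + r) + p = A + (r + p) by omega, show a + (A - a + r) = A + r by omega,
      a3 _ hr, a3 _ (by omega), add_right_inj] at this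
  have md : ∀ r < fib (j + 6), s r = s (r % p) := fun r => by
    induction r using Nat.strong_induction_on with
    | _ r ih =>
      intro hr
      rcases lt_or_ge r p with c | c
      · rw [mod_eq_of_lt c]
      · rw [mod_eq_sub_mod c, ← ih (r - p) (by omega) (by omega), ← per (r - p) (by omega),
          Nat.sub_add_cancel c]
  have b1 : s (fib (j + 5)) = s 0 + 1 := s_fib (k := j + 3) (r := 0) (fib_pos.2 (by omega))
  have l := mod_lt (fib (j + 3)) p0
  have b2 : s (fib (j + 4) + fib (j + 3) % p) = s (fib (j + 3) % p) + 1 :=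
    s_fib (k := j + 2) (show _ < fib (j + 3) by omega)
  have b3 : s (fib (j + 3)) = s 0 + 1 := s_fib (k := j + 1) (r := 0) (fib_pos.2 (by omega))
  rw [md _ (by omega), add_mod_mod, add_comm (fib (j + 4)), ← e3, ← md _ (by omega),
    ← md _ (by omega), b1, b3] at b2
  simp at b2

lemma ratio (n : ℕ) : 987 * fib (n + 14) ≤ 610 * fib (n + 15) ∧
    377 * fib (n + 15) ≤ 610 * fib (n + 14) := by
  induction n with
  | zero => decide
  | succ n ih =>
    have : fib (n + 16) = fib (n + 14) + fib (n + 15) := fib_add_two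
    show 987 * fib (n + 15) ≤ 610 * fib (n + 16) ∧ 377 * fib (n + 16) ≤ 610 * fib (n + 15)
    omega

theorem result :
    ¬ Tendsto (fun N : ℕ => (M N : ℝ) / N) atTop (𝓝 (1 / (1 + Real.goldenRatio ^ 2))) := by
  intro h
  have c : 2763 / 10000 < 1 / (1 + Real.goldenRatio ^ 2) ∧
      1 / (1 + Real.goldenRatio ^ 2) < 2764 / 10000 := by
    have h1 : √5 < 22361 / 10000 := Real.sqrt_lt' (by norm_num) |>.2 (by norm_num)
    have h2 : 22360 / 10000 < √5 := Real.lt_sqrt (by norm_num) |>.2 (by norm_num)
    rw [Real.goldenRatio_sq, Real.goldenRatio, lt_div_iff₀ (by positivity),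
      div_lt_iff₀ (by positivity)]
    constructor <;> linarith
  obtain ⟨K, hK⟩ := eventually_atTop.1 ((h.eventually (Ioo_mem_nhds c.1 c.2)).and
    (eventually_gt_atTop 0))
  have b : ∀ N, K ≤ N → 2763 * N < 10000 * M N ∧ 10000 * M N < 2764 * N := fun N hN => by
    obtain ⟨⟨h1, h2⟩, h3⟩ := hK N hN
    have : (0 : ℝ) < N := by exact_mod_cast h3
    rw [div_lt_div_iff₀ (by norm_num) this] at h1
    rw [div_lt_div_iff₀ this (by norm_num)] at h2
    constructor
    · exact_mod_cast (by linarith : 2763 * (N : ℝ) < 10000 * M N)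
    · exact_mod_cast (by linarith : 10000 * (M N : ℝ) < 2764 * N)
  obtain ⟨r1, r2⟩ := ratio (K + 100000)
  have g := le_fib_self (show 5 ≤ K + 100000 + 14 by omega)
  have e : fib (K + 100000 + 16) = fib (K + 100000 + 14) + fib (K + 100000 + 15) := fib_add_two
  have cp : ∀ r < fib (K + 100000 + 14), s (fib (K + 100000 + 16) + r) =
      s (fib (K + 100000 + 15) + r) := fun r hr => by
    rw [s_fib (k := K + 100000 + 14) (show _ < fib (K + 100000 + 15) by omega),
      s_fib (k := K + 100000 + 13) hr]
  rw [e] at cp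
  generalize fib (K + 100000 + 14) = F at *
  generalize fib (K + 100000 + 15) = G at *
  obtain ⟨N, hN⟩ : ∃ N, N = 2 * F + G := ⟨_, rfl⟩
  obtain ⟨b1, b2⟩ := b N (by omega)
  obtain ⟨k, hk⟩ : ∃ k, M N = k + 1 := ⟨M N - 1, by omega⟩
  obtain ⟨i, j, ij, a1, a2, a3⟩ : ∃ i j, i < j ∧ j + k < N ∧ (∀ t < k, s (i + t) = s (j + t)) ∧
      s (i + k) ≠ s (j + k) := by
    have : ¬ P N k := fun h => by have := M_le.2 h; omega
    simp only [P, not_forall] at this
    obtain ⟨i, j, a1, a2, a3, a4⟩ := this
    rcases lt_trichotomy i j with c | rfl | c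
    · exact ⟨i, j, c, a2, a3, a4⟩
    · exact (a4 rfl).elim
    · exact ⟨j, i, c, a1, fun t ht => (a3 t ht).symm, Ne.symm a4⟩
  have n1 : N - N / 2000 ≤ j + k := by
    by_contra c
    have := (b (N - N / 2000) (by omega)).2
    have := M_le.2 fun i j a b => M_le.1 (le_refl (M (N - N / 2000))) i j a b
    exact a3 (M_le.1 (show M (N - N / 2000) ≤ k by omega) i j (by omega) (by omega) a2)
  have n2 : N - N / 200 ≤ i + k := by
    by_contra c
    have := (b (N - N / 200) (by omega)).2
    obtain ⟨l, l1, l2, l3⟩ : ∃ l, l ≤ k ∧ l + N / 2000 ≤ F ∧ M (N - N / 200) ≤ l :=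
      ⟨M (N - N / 200), by omega, by omega, le_rfl⟩
    have c2 : ∀ x, F + G ≤ x → x < N → s (x - F) = s x := fun x x1 x2 => by
      have := cp (x - (F + G)) (by omega)
      rw [show F + G + (x - (F + G)) = x by omega, show G + (x - (F + G)) = x - F by omega] at this
      exact this.symm
    have := M_le.1 l3 (i + k - l) (j + k - l - F) (by omega) (by omega) fun t ht => by
      have := a2 (k - l + t) (by omega)
      rw [show i + k - l + t = i + (k - l + t) by omega, this,
        show j + k - l - F + t = j + (k - l + t) - F by omega, c2 _ (by omega) (by omega)]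
    rw [show i + k - l + l = i + k by omega, show j + k - l - F + l = j + k - F by omega,
      c2 _ (by omega) a1] at this
    exact a3 this
  exact noper (a := i) (p := j - i) (by omega) fun t ht => by
    rw [a2 t (by omega), show i + t + (j - i) = j + t by omega]

end Pool.Agent.Results.MP_b74c76_co.No
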